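import Pool.Agent.Work.MP_d5e364_co.Third

/-!
# Sylver coinage: moves after a telescopic position of greatest common divisor > 1

`IsWin S` and `IsLose S` (in `Pool.Agent.Work.MP_d5e364_co.Game`) say that the player to move wins,
respectively loses, from the position in which the numbers of `S` have been named; they are the
predicates of the frozen statement S11701.

`Tel S d` (in `Pool.Agent.Work.MP_d5e364_co.Tel`) says that `S` is a telescopic position with
greatest common divisor `d`: it is built from one number `n` (with `d = n`) by adding numbers `x`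
one after the other, where `x` may be added to a telescopic position `S'` of greatest common
divisor `d'` when `d' * (x / gcd x d')` is a sum of numbers of `S'`; the new greatest common divisor
is `gcd x d'`. All positions of one or two numbers are telescopic.

The theorem: from a telescopic position `S` of greatest common divisor `d > 1` in which `d` is not
yet excluded, every `x > 1` coprime to `d` such that `d * x` is a sum of numbers of `S` is a losing
move; this leaves finitely many moves coprime to `d`. If `d` is prime, it leaves finitely many moves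
altogether, and these decide the position. For two numbers `n, m` it covers every `x > 1` coprime to
`d` with `x ≥ (n/d - 1) * (m/d - 1)`.
-/

set_option autoImplicit false

namespace Pool.Agent.Results.MP_d5e364_co.ThirdMoves

open Pool.Agent.Sylver

lemma gcd_notMem {n m : ℕ} (hn : 0 < n) (hm : 0 < m) (hnm : ¬ n ∣ m) (hmn : ¬ m ∣ n) :
    Nat.gcd n m ∉ AddSubmonoid.closure ((({n, m} : Finset ℕ)) : Set ℕ) := by
  intro hc
  have hg : 0 < Nat.gcd n m := Nat.gcd_pos_of_pos_left _ hn
  have h1 : ∀ a ∈ AddSubmonoid.closure ((({n, m} : Finset ℕ)) : Set ℕ), a = 0 ∨ n ≤ a ∨ m ≤ a := by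
    intro a ha
    induction ha using AddSubmonoid.closure_induction with
    | mem s hs =>
      simp only [Finset.coe_insert, Finset.coe_singleton, Set.mem_insert_iff,
        Set.mem_singleton_iff] at hs
      rcases hs with rfl | rfl
      · exact Or.inr (Or.inl le_rfl)
      · exact Or.inr (Or.inr le_rfl)
    | zero => exact Or.inl rfl
    | add a b _ _ iha ihb => omega
  rcases h1 _ hc with h | h | h
  · omega
  · exact hnm (by
      have h2 : Nat.gcd n m = n :=
        le_antisymm (Nat.le_of_dvd hn (Nat.gcd_dvd_left n m)) h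
      rw [← h2]; exact Nat.gcd_dvd_right n m)
  · exact hmn (by
      have h2 : Nat.gcd n m = m :=
        le_antisymm (Nat.le_of_dvd hm (Nat.gcd_dvd_right n m)) h
      rw [← h2]; exact Nat.gcd_dvd_left n m)

theorem result :
    (∀ (S : Finset ℕ) (d : ℕ), Tel S d → 1 < d → d ∉ AddSubmonoid.closure (S : Set ℕ) →
      (∀ x : ℕ, 1 < x → Nat.Coprime x d → d * x ∈ AddSubmonoid.closure (S : Set ℕ) →
        IsWin (insert x S)) ∧
      {x : ℕ | Nat.Coprime x d ∧ d * x ∉ AddSubmonoid.closure (S : Set ℕ)}.Finite ∧
      (d.Prime →
        {x : ℕ | d * (x / Nat.gcd x d) ∉ AddSubmonoid.closure (S : Set ℕ)}.Finite ∧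
        (IsLose S ↔ ∀ x : ℕ, 1 < x →
          d * (x / Nat.gcd x d) ∉ AddSubmonoid.closure (S : Set ℕ) → IsWin (insert x S)))) ∧
    (∀ n m : ℕ, 0 < n → 0 < m → ¬ n ∣ m → ¬ m ∣ n → 1 < Nat.gcd n m →
      Tel {n, m} (Nat.gcd n m) ∧
      Nat.gcd n m ∉ AddSubmonoid.closure ((({n, m} : Finset ℕ)) : Set ℕ) ∧
      ∀ x : ℕ, 1 < x → Nat.Coprime x (Nat.gcd n m) →
        (n / Nat.gcd n m - 1) * (m / Nat.gcd n m - 1) ≤ x → IsWin {n, m, x}) := by
  refine ⟨fun S d hS hd hdS => ⟨fun x hx hcop hmem => tel_reply hS hd hdS hx hcop hmem,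
    finite_coprime hS, fun hp => tel_criterion hS hp hdS⟩, fun n m hn hm hnm hmn hd => ⟨?_, ?_, ?_⟩⟩
  · have h := tel_pair hm hn
    exact h
  · exact gcd_notMem hn hm hnm hmn
  · intro x hx hcop hb
    exact third_move_bound hn hm hnm hmn hd hx hcop hb

end Pool.Agent.Results.MP_d5e364_co.ThirdMoves
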